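import Mathlib
import Pool.Agent.R477.WB.Conv

set_option autoImplicit false

/-!
# Hyperbolicity of affine varieties and weighted automata with values on them

Let `X` and `Z` be the zeros, in affine `n`-space over a field `K` of characteristic zero, of
families of polynomials `F` and `G` (for `Z` empty take `G = 1`).

A weighted automaton over a field `L ⊇ K` attaches to a word `w = w_1 ⋯ w_l` over a finite alphabet
the vector `M A_{w_l} ⋯ A_{w_1} v`, where the transition matrices `A_a` are ARBITRARY square
matrices over `L`: they need not be invertible, and the monoid generated by them is in general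
neither commutative nor contained in a group. For words which are the expansions of the natural
numbers in base `b` these are the `b`-regular sequences of Allouche and Shallit (of vectors).

The following are equivalent:

* (`GmIn`) over every extension of `K`, all nonconstant morphisms from the punctured line `G_m` to
  `X` have their image in `Z`;
* (`PointedFinite`) for every finite extension `L` of `K` and every point `a ∈ X(L)` outside `Z`,
  there are only finitely many morphisms `G_m → X` over `L` which map `1` to `a`;
* (`WeightedAutomataA`) for all fields `L ⊇ K` every weighted automaton over `L` whose values on a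
  regular language `R` are points of `X(L)` is, outside of `Z`, a finite automaton: it has only
  finitely many values outside of `Z`, each of them is attained on a regular language, and the words
  with a value in `Z` form a regular language;
* (`RegularAutomaticA b` for all `b ≥ 2`) for all fields `L ⊇ K` every `b`-regular sequence of
  points of `X(L)` is, outside of `Z`, a `b`-automatic sequence with finitely many values;
* (`RegularFiniteA b` for one `b ≥ 2`) for all finite extensions `L` of `K` only finitely many
  points of a `b`-regular sequence of points of `X(L)` are outside of `Z`.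

The second condition is the special case `(C, c) = (G_m, 1)` of the finiteness of pointed morphisms
from curves. For `K = ℂ` all conditions hold if all nonconstant entire curves in `X` lie in `Z`; in
particular, if `X` is Brody hyperbolic, or if there are only finitely many morphisms
`(G_m, 1) → (X, a)` for each point `a`, then every `b`-regular sequence of points of `X` over ANY
field `L ⊇ ℂ` is `b`-automatic. If `K` is a number field, all conditions hold if the entire curves
in `X_σ` lie in `Z` for one embedding `σ` of `K` in `ℂ`, or if `X` has only finitely many
`S`-integral points outside `Z`, over all number fields `L ⊇ K` and for all finite sets `S`.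
-/

namespace Pool.Agent.Results.MP_dc0411_ag.AutomataOnAffine

open MvPolynomial Pool.Agent.R393.UA Pool.Agent.R477.WB
open Pool.Agent.H159R3.Exp (FinitelyManyIntegral)
open Pool.Agent.W235.RM (EntireCurvesIn)
open scoped NumberField

/-- **Hyperbolicity of affine varieties and weighted automata.** -/
theorem result :
    (∀ (K : Type) [Field K] [CharZero K] (ι κ : Type) (n : ℕ)
      (F : ι → MvPolynomial (Fin n) K) (G : κ → MvPolynomial (Fin n) K),
      List.TFAE [GmIn F G, PointedFinite F G, WeightedAutomataA F G,
        ∀ b, 2 ≤ b → RegularAutomaticA b F G, ∃ b, 2 ≤ b ∧ RegularFiniteA b F G]) ∧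
    (∀ (ι κ : Type) (n : ℕ) (F : ι → MvPolynomial (Fin n) ℂ) (G : κ → MvPolynomial (Fin n) ℂ),
      EntireIn F G → WeightedAutomataA F G) ∧
    (∀ (K : Type) [Field K] [NumberField K] (σ : K →+* ℂ) (ι κ : Type) [Finite ι] (n : ℕ)
      (F : ι → MvPolynomial (Fin n) (𝓞 K)) (G : κ → MvPolynomial (Fin n) (𝓞 K)),
      (EntireCurvesIn σ F G → WeightedAutomataA (fld F) (fld G)) ∧
      (FinitelyManyIntegral F G → WeightedAutomataA (fld F) (fld G))) := by
  refine ⟨fun K _ _ ι κ n F G => ?_, fun ι κ n F G h => weighted_of_gm (gm_of_entire F G h),
    fun K _ _ σ ι κ _ n F G => ⟨fun h => weighted_of_gm (gm_of_brody h), fun h =>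
      weighted_of_gm (gm_of_integral σ h)⟩⟩
  tfae_have 1 → 2 := pointed_of_gm F G
  tfae_have 2 → 1 := gm_of_pointed F G
  tfae_have 1 → 3 := fun h => weighted_of_gm h
  tfae_have 3 → 4 := fun h b hb => automatic_of_weightedA h b hb
  tfae_have 4 → 5 := fun h => ⟨2, le_rfl, fun L _ _ _ y hy hP => (h 2 le_rfl L y hy hP).1⟩
  tfae_have 5 → 1 := fun ⟨b, hb, h⟩ => gm_of_regularA b hb h
  tfae_finish

end Pool.Agent.Results.MP_dc0411_ag.AutomataOnAffine
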