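import Pool.Agent.R871.SG.AlgC

/-!
MP_dc0411_ag, Q1: the condition (3), finiteness of pointed algebraic maps, and holomorphic maps of slow
growth.
-/

set_option autoImplicit false

namespace Pool.Agent.Results.MP_dc0411_ag.PointedFiniteness

open Pool.Agent.R871.SG MvPolynomial

/-- Let `Y` be an irreducible affine variety in `ℂᵖ` (for instance an affine curve), given by the prime
ideal `I`, and let `X = {F = 0}` be an affine variety in `ℂˢ`, all over the complex numbers. Let `y` be
a point of `ℂᵖ` (for instance of `Y`) and `x` a point of `ℂˢ`. There is a function `φ` with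
`φ r / log r → ∞` for `r → ∞` such that the following holds. Consider holomorphic maps `Y → X` which
are restrictions of entire maps `f : ℂᵖ → ℂˢ` with `f y = x` such that `log ‖f z‖ ≤ φ r` for all `z`
with `‖z‖ ≤ r`, for arbitrarily large `r`.

(1) All algebraic maps `Y → X` with `y ↦ x` are among these maps, and all these maps are limits of
algebraic maps `Y → X` with `y ↦ x` (for the topology of pointwise convergence).

(2) If there are only finitely many algebraic maps `Y → X` with `y ↦ x`, then all these holomorphic
maps are algebraic.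

(3) The number of these holomorphic maps is finite if and only if the number of algebraic maps
`Y → X` with `y ↦ x` is finite. -/
theorem result {p s : ℕ} {ι : Type} (I : Ideal (MvPolynomial (Fin p) ℂ)) [I.IsPrime]
    (F : ι → MvPolynomial (Fin s) ℂ) (y : Fin p → ℂ) (x : Fin s → ℂ) : ∃ φ : ℝ → ℝ, Grows φ ∧
      (PolMaps I F y x ⊆ SlowMaps φ I F y x ∧ SlowMaps φ I F y x ⊆ closure (PolMaps I F y x)) ∧
      ((PolMaps I F y x).Finite → SlowMaps φ I F y x = PolMaps I F y x) ∧
      ((SlowMaps φ I F y x).Finite ↔ (PolMaps I F y x).Finite) := by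
  obtain ⟨φ, hφ, h⟩ := approx_var I F y (isClosed_singleton (x := x))
  have hsub : PolMaps I F y x ⊆ SlowMaps φ I F y x := by
    rintro g ⟨P, h1, h2, h3⟩
    exact ⟨mv P, h1, mv_slow hφ P, h2, h3⟩
  have hcl : SlowMaps φ I F y x ⊆ closure (PolMaps I F y x) := by
    rintro g ⟨f, hf, hs, hx, hg⟩
    obtain ⟨P, hP, hPx, hlim⟩ := approx_seq (h f hf.1 hf.2 hx hs)
    refine mem_closure_of_tendsto (f := fun k : ℕ => fun z : zset I => mv (P k) z.1)
      (b := Filter.atTop) ?_ (Filter.Eventually.of_forall fun k => ⟨P k, hP k, hPx k, fun z => rfl⟩)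
    refine tendsto_pi_nhds.2 fun z => ?_
    rw [hg z]
    exact hlim z.1
  have heq : (PolMaps I F y x).Finite → SlowMaps φ I F y x = PolMaps I F y x := fun hfin =>
    Set.Subset.antisymm (hcl.trans hfin.isClosed.closure_eq.subset) hsub
  exact ⟨φ, hφ, ⟨hsub, hcl⟩, heq, fun hfin => hfin.subset hsub, fun hfin => by
    rw [heq hfin]; exact hfin⟩

end Pool.Agent.Results.MP_dc0411_ag.PointedFiniteness
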