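import Mathlib
import Pool.Agent.R393.UJ.PtsGen

set_option autoImplicit false

/-!
# Hyperbolicity of affine varieties: all but boundedly many points lie on curves from `G_m`

Let `X` be the zeros, in affine `n`-space over a field `k` of characteristic zero, of a family `F`
of polynomials of degree at most `d`.

**Families.**  Let `H` be a group and `L ⊇ k` a field.  A family of points `x(h)`, `h ∈ H`, over `L`
is given by iterated recurrences of complexity `(s, r, e)` (`IterVec s r e x`) if there are functions
`X_1, …, X_s` on `H` with values in the invertible `r × r` matrices over `L` such that for each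
`g ∈ H` the entries of `X_l(g h) X_l(h)⁻¹` are, for all `h ∈ H`, values of fixed polynomials of
degree at most `e` in each variable at the entries of the `X_i(h)`, `X_i(h)⁻¹`, `i < l`, and the
coordinates of `x(h)` are such polynomials in the entries of all `X_i(h)`, `X_i(h)⁻¹`.  For
`s = e = 1` this includes the orbits `x(h) = M ρ(h) v` of arbitrary groups of `r × r` matrices (see
`orbit_bound`): the group need not be finitely generated, and it can be finite of any order.

**Theorem.** There is a number `B n d s r e`, which depends on nothing else, such that:

(1) (`PointsOnGm`) for all `s, r, e`, all fields `L ⊇ k`, all groups `H` and all families `x(h)`,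
`h ∈ H`, of points of `X(L)` given by iterated recurrences of complexity `(s, r, e)`, all but at most
`B n d s r e` of the points `x(h)` lie on the image of a nonconstant morphism `G_m → X`, given by
Laurent polynomials with exponents between `-B n d s r e` and `B n d s r e` over an extension of `L`.

(2) For every closed subset `Z`, given by a family `G` of polynomials of any degrees (for `Z` empty
take `G = 1`; only the points of `X` outside `Z` matter), the following are equivalent:

* (`GmIn`) over every extension of `k`, all nonconstant morphisms from the punctured line `G_m` to
  `X` have their image in `Z`;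
* (`PointedFinite`) for every finite extension `L` of `k` and every point `a ∈ X(L)` outside `Z`,
  there are only finitely many morphisms `G_m → X` over `L` which map `1` to `a`;
* (`FamiliesBoundedA`) for all `s, r, e` and all families `x(h)`, `h ∈ H`, as in (1) at most
  `B n d s r e` of the points `x(h)` are outside `Z`;
* (`SequencesFiniteA`) all sequences of points of `X(L)`, for finite extensions `L` of `k`, which
  are indexed by the integers and given by recurrences of complexity `(1, 1, e)`, have only
  finitely many points outside `Z`.

The second condition is the special case `(C, c) = (G_m, 1)` of the finiteness of pointed morphisms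
from curves.

(3) For `k = ℂ` these conditions hold if all nonconstant entire curves in `X` lie in `Z`
(`EntireIn`); in particular, if `X` is Brody hyperbolic, or if there are only finitely many morphisms
`(G_m, 1) → (X, a)` for each point `a`, then a family of points of `X` over ANY field `L ⊇ ℂ`, given
by iterated recurrences of complexity `(s, r, e)` over any group, has at most `B n d s r e` points.
If `k = K` is a number field, all conditions hold if the entire curves in `X_σ` lie in `Z` for one
embedding `σ` of `K` in `ℂ`, or if `X` has only finitely many `S`-integral points outside `Z`,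
over all number fields `L ⊇ K` and for all finite sets `S`.

The proof is by compactness. If there were no bound, a homomorphism `Θ` from the ring of sequences of
complex numbers to `ℂ`, which kills the sequences with finitely many nonzero terms, would give a
family over the product of the groups, with infinitely many points, on the limit variety; so, by the
theorem on iterated recurrences (`Pool.Agent.Y377.IR`), a curve with the source `G_m` passes through
the generic point of the closure of a part of this family. By a theorem on the specialisation of such
curves (`Pool.Agent.R393.UJ.spec_curveL`: if a nonconstant morphism `G_m → X` with exponents between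
`-N` and `N` passes through a point, then through each of its specialisations passes one with
exponents between `-2N` and `2N`; proved with a valuation ring which dominates the local ring of the
specialisation) such curves pass through the members of the limit family; they can be chosen over
the algebraically closed field which is the image of `Θ` and lifted to curves of the same degree in
the given varieties.
-/

namespace Pool.Agent.Results.MP_dc0411_ag.UniformGmFamilies

open MvPolynomial Pool.Agent.R393.UA Pool.Agent.R393.UJ Pool.Agent.Y377.ST Pool.Agent.TH717.GO
open Pool.Agent.H159R3.Exp (FinitelyManyIntegral)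
open Pool.Agent.W235.RM (EntireCurvesIn)
open scoped NumberField

/-- the special case of orbits of groups of matrices -/
theorem orbit_bound {B : ℕ → ℕ → ℕ → ℕ → ℕ → ℕ} {k : Type} [Field k] {ι : Type} {n d : ℕ}
    {F : ι → MvPolynomial (Fin (n + 1)) k}
    (h : PointsOnGm B d F) (r : ℕ) (L : Type) [Field L] [Algebra k L] (H : Type) [Group H]
    (ρ : H →* Matrix.GeneralLinearGroup (Fin r) L) (M : Matrix (Fin (n + 1)) (Fin r) L)
    (v : Fin r → L) (hX : ∀ h i, aeval (orb M ρ v h) (F i) = 0) :
    (offGm (B (n + 1) d 1 r 1) (fun i => map (algebraMap k L) (F i)) (orb M ρ v)).encard ≤
      B (n + 1) d 1 r 1 :=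
  h 1 r 1 L H (orb M ρ v) (iterVec_orb M ρ v) hX

/-- **Hyperbolicity of affine varieties and families of points given by iterated recurrences.** -/
theorem result : ∃ B : ℕ → ℕ → ℕ → ℕ → ℕ → ℕ,
    (∀ (k : Type) [Field k] [CharZero k] (ι : Type) (n d : ℕ) (F : ι → MvPolynomial (Fin n) k),
      (∀ i, (F i).totalDegree ≤ d) → PointsOnGm B d F) ∧
    (∀ (k : Type) [Field k] [CharZero k] (ι κ : Type) (n d : ℕ)
      (F : ι → MvPolynomial (Fin n) k) (G : κ → MvPolynomial (Fin n) k),
      (∀ i, (F i).totalDegree ≤ d) →
      List.TFAE [GmIn F G, PointedFinite F G, FamiliesBoundedA (B n d) F G,
        SequencesFiniteA F G]) ∧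
    (∀ (ι κ : Type) (n d : ℕ) (F : ι → MvPolynomial (Fin n) ℂ) (G : κ → MvPolynomial (Fin n) ℂ),
      (∀ i, (F i).totalDegree ≤ d) → EntireIn F G → FamiliesBoundedA (B n d) F G) ∧
    (∀ (K : Type) [Field K] [NumberField K] (σ : K →+* ℂ) (ι κ : Type) [Finite ι] (n d : ℕ)
      (F : ι → MvPolynomial (Fin n) (𝓞 K)) (G : κ → MvPolynomial (Fin n) (𝓞 K)),
      (∀ i, (F i).totalDegree ≤ d) →
      (EntireCurvesIn σ F G → FamiliesBoundedA (B n d) (fld F) (fld G)) ∧
      (FinitelyManyIntegral F G → FamiliesBoundedA (B n d) (fld F) (fld G))) := by
  refine ⟨TA, fun k _ _ ι n d F hF => pointsOnGm F hF, fun k _ _ ι κ n d F G hF => ?_,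
    fun ι κ n d F G hF h => families_of_pointsA F G (pointsOnGm F hF) (gm_of_entire F G h),
    fun K _ _ σ ι κ _ n d F G hF =>
    ⟨fun h => families_of_pointsA _ _ (pointsOnGm _ (fld_deg hF)) (gm_of_brody h), fun h =>
      families_of_pointsA _ _ (pointsOnGm _ (fld_deg hF)) (gm_of_integral σ h)⟩⟩
  tfae_have 1 → 2 := pointed_of_gm F G
  tfae_have 2 → 1 := gm_of_pointed F G
  tfae_have 1 → 3 := families_of_pointsA F G (pointsOnGm F hF)
  tfae_have 3 → 4 := seqA_of_bounded
  tfae_have 4 → 1 := gm_of_seqA F G
  tfae_finish

end Pool.Agent.Results.MP_dc0411_ag.UniformGmFamilies
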